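import Pool.Agent.H189.GR.Gr
import Pool.Agent.W788.BK.Unif
import Pool.Agent.Results.MP_562b47_mp.FlatSpectralMeasures

/-!
# Uniform Anderson model at weak disorder, `d ≥ 3`: Fermi's golden rule for one fixed realisation

`Δ_ω = -Δ + ω` on `ℤ^d`, `d ≥ 3`, with iid `ω_j` uniform on `[-c, c]`. Let `0 < κ ≤ 1` and let
`e₀ ∈ [κ, 4 d - κ]`. Let `f` be a unit vector of `ℓ²(ℤ^d)` supported in the ball of radius `c^{-5}`
which is close to the energy shell: `‖(-Δ - e₀) f‖ ≤ c^{41/20}`, for instance a plane wave with a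
smooth cut-off on the scale `c^{-21/10}` (the mean free path is `~ c^{-2}`). For `c ≤ c₀(d, κ)`, with
probability at least `1 - exp(-c^{-1/100})`, for all sites `|a| ≤ exp(c^{-1/100})` the spectral
measure `m` of `Δ_ω` and the translate `f(· - a)` satisfies, for all `α ≤ β`,

`|m [α, β] - C_{x₀,Γ} [α, β]| ≤ c^{1/300}`,

where `C_{x₀,Γ}` is the Cauchy (Lorentz) distribution with the centre `x₀ = e₀ + (c²/3) Re g` and the
half width `Γ = (c²/3) Im g`; `g = g(e₀)`, with `Im g > 0`, is the limit for `t ↓ 0` of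
`∫_{[0,1]^d} (∑_i 2 cos 2πk_i - (2 d - e₀) - i t)⁻¹ dk` and `c²/3` is the variance of `ω_j`.

So the spectral measures of the wave packets look absolutely continuous on the scale of their width
`~ c²`: they are given by Fermi's golden rule and the second order level shift, for every
translate in an exponentially large box.
-/

set_option autoImplicit false

open scoped BigOperators ENNReal Topology ComplexConjugate
open MeasureTheory Filter

namespace Pool.Agent.Results.MP_562b47_mp.GoldenRule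

open Pool.Agent.Results.MP_562b47_mp.FlatSpectralMeasures

/-- `∫_{[0,1]^d} (∑_i 2 cos 2πk_i - (2 d - e) - i t)⁻¹ dk`, the free resolvent on the diagonal -/
noncomputable def freeG (d : ℕ) (e t : ℝ) : ℂ :=
  ∫ k in Set.Icc (0 : Fin d → ℝ) 1,
    (((∑ i, 2 * Real.cos (2 * Real.pi * k i) - (2 * d - e) : ℝ) : ℂ) - (t : ℂ) * Complex.I)⁻¹

/-- the mass of `[α, β]` for the Cauchy distribution with the centre `x₀` and the half width `Γ` -/
noncomputable def cauchy (x₀ Γ α β : ℝ) : ℝ :=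
  1 / Real.pi * (Real.arctan ((β - x₀) / Γ) - Real.arctan ((α - x₀) / Γ))

/-- `f` is a wave packet on the energy shell `e`: a unit vector with support in the ball of radius
`R` and with `‖(-Δ - e) f‖ ≤ r` -/
structure IsWavePacket {d : ℕ} (e R r : ℝ) (f : (Fin d → ℤ) → ℂ) : Prop where
  supp : ∀ x, R < ‖x‖ → f x = 0
  norm : ∑' x, ‖f x‖ ^ 2 = 1
  shell : ∑' x, ‖H (fun _ => 0) f x - (e : ℂ) * f x‖ ^ 2 ≤ r ^ 2

theorem cube_eq (d : ℕ) : Pool.Agent.TH794.QE.cube d =
    (volume : Measure (Fin d → ℝ)).restrict (Set.Icc (0 : Fin d → ℝ) 1) := by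
  unfold Pool.Agent.TH794.QE.cube
  rw [volume_pi, ← Set.pi_univ_Icc, Measure.restrict_pi_pi]
  rfl

theorem freeG_eq (d : ℕ) (e t : ℝ) (ht : 0 < t) : freeG d e t =
    Pool.Agent.TH794.QD.GF (Pool.Agent.TH794.QD.F0 d)
      (((2 * (d : ℝ) - e : ℝ) : ℂ) + (t : ℂ) * Complex.I) := by
  rw [Pool.Agent.TH794.QE.GF0_cube d _ (by simpa using ht), cube_eq]
  unfold freeG Pool.Agent.TH794.QE.sym
  refine integral_congr_ae (Eventually.of_forall fun k => ?_)
  simp only
  congr 1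
  push_cast
  ring

theorem unif_neg : (Pool.Agent.W788.LD.Uni.unif 1).map (fun t : ℝ => -t) =
    Pool.Agent.W788.LD.Uni.unif 1 := by
  unfold Pool.Agent.W788.LD.Uni.unif
  rw [Measure.map_smul]
  congr 1
  have h1 := (Measure.measurePreserving_neg (volume : Measure ℝ)).restrict_preimage
    (s := Set.Icc (-1 : ℝ) 1) measurableSet_Icc
  have h2 : (Neg.neg : ℝ → ℝ) ⁻¹' Set.Icc (-1 : ℝ) 1 = Set.Icc (-1) 1 := by
    ext s
    simp only [Set.mem_preimage, Set.mem_Icc]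
    constructor
    · rintro ⟨h3, h4⟩
      constructor <;> linarith
    · rintro ⟨h3, h4⟩
      constructor <;> linarith
  rw [h2] at h1
  exact h1.map_eq

theorem unif_mean : ∫ s, s ∂(Pool.Agent.W788.LD.Uni.unif 1) = 0 := by
  unfold Pool.Agent.W788.LD.Uni.unif
  rw [integral_smul_measure, integral_Icc_eq_integral_Ioc,
    ← intervalIntegral.integral_of_le (by norm_num), integral_id]
  norm_num

theorem unif_var : ∫ s, s ^ 2 ∂(Pool.Agent.W788.LD.Uni.unif 1) = 1 / 3 := by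
  unfold Pool.Agent.W788.LD.Uni.unif
  rw [integral_smul_measure, integral_Icc_eq_integral_Ioc,
    ← intervalIntegral.integral_of_le (by norm_num), integral_pow]
  rw [ENNReal.toReal_ofReal (by norm_num), smul_eq_mul]
  norm_num

/-- **Theorem.** -/
theorem result (d : ℕ) (hd : 3 ≤ d) : ∃ g : ℝ → ℂ,
    (∀ e : ℝ, 0 < e → e < 4 * d →
      Tendsto (fun t => freeG d e t) (𝓝[>] 0) (𝓝 (g e)) ∧ 0 < (g e).im) ∧
    ∀ κ : ℝ, 0 < κ → κ ≤ 1 → ∃ c0 : ℝ, 0 < c0 ∧ ∀ c : ℝ, 0 < c → c ≤ c0 →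
      ∀ e : ℝ, κ ≤ e → e ≤ 4 * d - κ → ∀ f : (Fin d → ℤ) → ℂ,
      IsWavePacket e (c ^ (-5 : ℝ)) (c ^ (41 / 20 : ℝ)) f →
      ∃ G : Set ((Fin d → ℤ) → ℝ), MeasurableSet G ∧
        1 - Real.exp (-c ^ (-(1 / 100) : ℝ)) ≤
          (Measure.infinitePi fun _ : Fin d → ℤ => unif c).real G ∧
        ∀ ω ∈ G, ∀ a : Fin d → ℤ, ‖a‖ ≤ Real.exp (c ^ (-(1 / 100) : ℝ)) →
        ∀ m : Measure ℝ, IsSpectralMeasure (H ω) (fun x => f (x - a)) m →
        ∀ α β : ℝ, α ≤ β →
          |m.real (Set.Icc α β) -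
            cauchy (e + c ^ 2 / 3 * (g e).re) (c ^ 2 / 3 * (g e).im) α β| ≤
            c ^ (1 / 300 : ℝ) := by
  classical
  have hd3 : (3 : ℝ) ≤ d := by exact_mod_cast hd
  refine ⟨fun e => Pool.Agent.TH794.QD.GF (Pool.Agent.TH794.QD.F0 d) ((2 * d - e : ℝ) : ℂ),
    fun e he1 he2 => ⟨?_, ?_⟩, fun κ hκ hκ1 => ?_⟩
  · have h1 := Pool.Agent.TH794.QE.lim3 _ _
      (Pool.Agent.TH794.QD.hol0 Pool.Agent.W918.BK.Osc.osc d hd) (2 * d - e)
    refine h1.congr' ?_
    filter_upwards [self_mem_nhdsWithin] with t ht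
    rw [freeG_eq d e t ht]
  · obtain ⟨γ0, γ1, hbase⟩ := Pool.Agent.R988.base d (by omega)
    obtain ⟨κ, hκ⟩ : ∃ κ, κ = min (min e (4 * d - e)) 1 := ⟨_, rfl⟩
    have hκ0 : 0 < κ := by
      rw [hκ]
      exact lt_min (lt_min he1 (by linarith)) one_pos
    have h3 : κ ≤ e := by
      rw [hκ]
      exact (min_le_left _ _).trans (min_le_left _ _)
    have h4 : κ ≤ 4 * d - e := by
      rw [hκ]
      exact (min_le_left _ _).trans (min_le_right _ _)
    obtain ⟨h1, ⟨m1, hm1, h2⟩, -⟩ := hbase κ hκ0 (by rw [hκ]; exact min_le_right _ _)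
    have hE : |2 * (d : ℝ) - e| ≤ 2 * d - κ := by
      rw [abs_le]
      constructor <;> linarith
    have hreg : Pool.Agent.TH794.QE.RegE d κ (2 * (d : ℝ) - e) :=
      Or.inr ⟨hd, hE.trans (by linarith)⟩
    have h5 := h2 _ hreg hE
    have h6 := (h1 _ hreg).2.2.2
    have h7 : γ0 (2 * (d : ℝ) - e) =
        Pool.Agent.TH794.QD.GF (Pool.Agent.TH794.QD.F0 d) ((2 * d - e : ℝ) : ℂ) :=
      tendsto_nhds_unique (h1 _ hreg).1 (Pool.Agent.TH794.QE.lim3 _ _
        (Pool.Agent.TH794.QD.hol0 Pool.Agent.W918.BK.Osc.osc d hd) _)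
    beta_reduce
    rw [← h7]
    linarith
  obtain ⟨l0, hl0, -, h⟩ := Pool.Agent.H189.GR.gr d hd κ hκ hκ1 1 (1 / 3) one_pos (by norm_num)
  refine ⟨l0, hl0, fun c hc hle e he1 he2 f hf => ?_⟩
  have huc : IsProbabilityMeasure (unif c) := Pool.Agent.W788.LD.Uni.unif_prob c hc
  have hHS : ∀ (ω : (Fin d → ℤ) → ℝ) (u : (Fin d → ℤ) → ℂ) (x : Fin d → ℤ), H ω u x =
      -Pool.Agent.W788.LD.Spec.S u x + ((2 * d + ω x : ℝ) : ℂ) * u x := by
    intro ω u x
    unfold H Pool.Agent.W788.LD.Spec.S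
    have h2 : ∑ i : Fin d, ((u (x + Pi.single i 1) - u x) + (u (x - Pi.single i 1) - u x)) =
        ∑ i : Fin d, (u (x + Pi.single i 1) + u (x - Pi.single i 1)) - 2 * (d : ℂ) * u x := by
      rw [Finset.sum_add_distrib, Finset.sum_sub_distrib, Finset.sum_sub_distrib,
        Finset.sum_add_distrib]
      simp
      ring
    rw [h2]
    push_cast
    ring
  obtain ⟨G, hG, hP, hb⟩ := h c hc hle (Pool.Agent.W788.LD.Uni.unif 1)
    (Pool.Agent.W788.LD.Uni.unif_prob 1 one_pos)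
    (Pool.Agent.W788.LD.Uni.unif_bdd 1) unif_mean (1 / 3) unif_var le_rfl (2 * d - e) (by
      rw [abs_le]
      constructor <;> linarith) f hf.supp hf.norm (by
      refine le_trans (le_of_eq ?_) hf.shell
      refine tsum_congr fun x => ?_
      rw [hHS]
      congr 1
      rw [← norm_neg]
      congr 1
      push_cast
      ring)
  have hTm : Measurable (fun (ω : (Fin d → ℤ) → ℝ) x => -(ω x / c)) := by fun_prop
  have hlaw : (Measure.infinitePi fun _ : Fin d → ℤ => unif c).map (fun ω x => -(ω x / c)) =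
      Measure.infinitePi fun _ : Fin d → ℤ => Pool.Agent.W788.LD.Uni.unif 1 := by
    have h1 := Measure.infinitePi_map_pi (μ := fun _ : Fin d → ℤ => unif c)
      (f := fun _ (s : ℝ) => -(s / c)) (fun _ => by fun_prop)
    rw [h1]
    congr 1
    funext _
    have h2 : (unif c).map (fun s : ℝ => -(s / c)) =
        ((unif c).map (fun s : ℝ => s / c)).map (fun s : ℝ => -s) := by
      rw [Measure.map_map (by fun_prop) (by fun_prop)]
      rfl
    rw [h2]
    have h3 : (unif c).map (fun s : ℝ => s / c) = Pool.Agent.W788.LD.Uni.unif 1 :=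
      Pool.Agent.W788.BK.Unif.unif_scale c hc
    rw [h3, unif_neg]
  refine ⟨(fun ω x => -(ω x / c)) ⁻¹' G, hTm hG, ?_, ?_⟩
  · have h1 : (Measure.infinitePi fun _ : Fin d → ℤ => unif c).real
        ((fun ω x => -(ω x / c)) ⁻¹' G) =
        (Measure.infinitePi fun _ : Fin d → ℤ => Pool.Agent.W788.LD.Uni.unif 1).real G := by
      rw [← hlaw, map_measureReal_apply hTm hG]
    rw [h1]
    exact hP
  intro ω hω a ha m hm α β hαβ
  have hkey := hb _ hω a ha m hm.1 (fun z hz => by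
    obtain ⟨u, hu, heq, hint⟩ := hm.2 z hz
    refine ⟨u, hu, fun x => ?_, hint⟩
    rw [← heq x, hHS]
    have h3 : 2 * (d : ℝ) - c * -(ω x / c) = 2 * d + ω x := by
      field_simp
      ring
    beta_reduce
    rw [h3]) α β hαβ
  unfold cauchy
  have e1 : 2 * (d : ℝ) - (2 * d - e) + c ^ 2 * (1 / 3) *
      (Pool.Agent.TH794.QD.GF (Pool.Agent.TH794.QD.F0 d) ((2 * d - e : ℝ) : ℂ)).re =
      e + c ^ 2 / 3 *
      (Pool.Agent.TH794.QD.GF (Pool.Agent.TH794.QD.F0 d) ((2 * d - e : ℝ) : ℂ)).re := by ring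
  have e2 : c ^ 2 * (1 / 3) *
      (Pool.Agent.TH794.QD.GF (Pool.Agent.TH794.QD.F0 d) ((2 * d - e : ℝ) : ℂ)).im =
      c ^ 2 / 3 *
      (Pool.Agent.TH794.QD.GF (Pool.Agent.TH794.QD.F0 d) ((2 * d - e : ℝ) : ℂ)).im := by ring
  rw [e1, e2] at hkey
  exact hkey

end Pool.Agent.Results.MP_562b47_mp.GoldenRule
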