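import Pool.Agent.H189.ME2.Ld
import Pool.Agent.W788.BK.Unif
import Pool.Agent.Results.MP_562b47_mp.FlatSpectralMeasures

/-!
# Uniform Anderson model at weak disorder, `d ≥ 2`: below the kinetic scale the spectral measures
are the free ones, and short localized eigenfunctions carry a small part of them

`Δ_ω = -Δ + ω` on `ℤ^d`, `d ≥ 2`, with iid `ω_j` uniform on `[-c, c]`. Let `n` be the density of
states of `-Δ`. For `0 < κ ≤ 1`, `δ > 0` and `c ≤ c₀(d, κ, δ)`, with probability at least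
`1 - exp(-c^{-1/101})`, the following holds simultaneously for

* all sites `|a| ≤ exp(c^{-1/101})`, with the spectral measure `m` of `Δ_ω` and `δ_a`,
* all energy intervals `[α, β]` of length at least `c^{2 + 1/50}` (less than the kinetic scale `c²`)
  inside `[κ, 4 d - κ]`, and outside of `|e - 4| < κ` if `d = 2`,
* all orthonormal families of `ℓ²`-eigenfunctions `u_j` of `Δ_ω` with energies in `[α, β]` and
  exponential decay `|u_j(x)| ≤ A exp(-|x - c_j| / ℓ)` around centres `c_j` of their own, with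
  `ℓ = c^{-2 - 1/100}` and `A = exp(c^{-1/1000})`:

`|m [α, β] - ∫_α^β n| ≤ c^{1/300} (β - α)` and `∑_j |u_j(a)|² ≤ δ m [α, β]`.

So on the energy scale `c^{2 + 1/50}` the spectral measures of all sites look absolutely continuous,
with the density `n` of the free Laplacian, and almost nothing of them is in eigenfunctions whose
localization length is at most `c^{-2 - 1/100}`, although that is longer than the mean free path
`~ c^{-2}`.
-/

set_option autoImplicit false

open scoped BigOperators ENNReal Topology ComplexConjugate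
open MeasureTheory Filter

namespace Pool.Agent.Results.MP_562b47_mp.LocalDensityOfStates

open Pool.Agent.Results.MP_562b47_mp.FlatSpectralMeasures

/-- the density of states of the free Laplacian `-Δ` at the energy `e`, smoothed on the scale `t` -/
noncomputable def freeDos (d : ℕ) (t e : ℝ) : ℝ :=
  (1 / Real.pi) * ∫ k in Set.Icc (0 : Fin d → ℝ) 1,
    t / ((∑ i, (2 - 2 * Real.cos (2 * Real.pi * k i)) - e) ^ 2 + t ^ 2)

/-- an orthonormal family of eigenfunctions of `Δ_ω` in `ℓ²(ℤ^d)` with energies in `[α, β]`, each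
with exponential decay with the length `ℓ` and the constant `A` around a centre of its own -/
structure IsLocalizedFamily {d : ℕ} (ω : (Fin d → ℤ) → ℝ) (α β A ℓ : ℝ) {ι : Type}
    (u : ι → (Fin d → ℤ) → ℂ) : Prop where
  norm : ∀ j, HasSum (fun x => ‖u j x‖ ^ 2) 1
  orth : ∀ j k, j ≠ k → ∑' x, conj (u j x) * u k x = 0
  eig : ∀ j, ∃ E : ℝ, α ≤ E ∧ E ≤ β ∧ ∀ x, H ω (u j) x = (E : ℂ) * u j x
  decay : ∀ j, ∃ c : Fin d → ℤ, ∀ x, ‖u j x‖ ≤ A * Real.exp (-(‖x - c‖ / ℓ))

theorem cube_eq (d : ℕ) : Pool.Agent.TH794.QE.cube d =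
    (volume : Measure (Fin d → ℝ)).restrict (Set.Icc (0 : Fin d → ℝ) 1) := by
  unfold Pool.Agent.TH794.QE.cube
  rw [volume_pi, ← Set.pi_univ_Icc, Measure.restrict_pi_pi]
  rfl

theorem freeDos_eq (d : ℕ) (t e : ℝ) (ht : 0 < t) : freeDos d t e =
    (Pool.Agent.TH794.QD.GF (Pool.Agent.TH794.QD.F0 d)
      (((2 * (d : ℝ) - e : ℝ) : ℂ) + (t : ℂ) * Complex.I)).im / Real.pi := by
  rw [Pool.Agent.H189.W.GF0_im d _ t ht, cube_eq]
  unfold freeDos Pool.Agent.H189.W.pk Pool.Agent.TH794.QE.sym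
  rw [one_div, inv_mul_eq_div]
  congr 1
  refine integral_congr_ae (Eventually.of_forall fun k => ?_)
  simp only
  have e1 : ∑ i : Fin d, (2 - 2 * Real.cos (2 * Real.pi * k i)) =
      2 * (d : ℝ) - ∑ i : Fin d, 2 * Real.cos (2 * Real.pi * k i) := by
    rw [Finset.sum_sub_distrib]
    simp
    ring
  rw [e1]
  congr 2
  ring

theorem unif_mean : ∫ s, s ∂(Pool.Agent.W788.LD.Uni.unif 1) = 0 := by
  unfold Pool.Agent.W788.LD.Uni.unif
  rw [integral_smul_measure, integral_Icc_eq_integral_Ioc,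
    ← intervalIntegral.integral_of_le (by norm_num), integral_id]
  norm_num

theorem unif_var : ∫ s, (s - 0) ^ 2 ∂(Pool.Agent.W788.LD.Uni.unif 1) = 1 / 3 := by
  unfold Pool.Agent.W788.LD.Uni.unif
  simp only [sub_zero]
  rw [integral_smul_measure, integral_Icc_eq_integral_Ioc,
    ← intervalIntegral.integral_of_le (by norm_num), integral_pow]
  rw [ENNReal.toReal_ofReal (by norm_num), smul_eq_mul]
  norm_num

/-- **Theorem.** -/
theorem result (d : ℕ) (hd : 2 ≤ d) : ∃ n : ℝ → ℝ,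
    (∀ e : ℝ, 0 < e → e < 4 * d → (d = 2 → e ≠ 4) →
      Tendsto (fun t => freeDos d t e) (𝓝[>] 0) (𝓝 (n e)) ∧ 0 < n e) ∧
    ∀ κ δ : ℝ, 0 < κ → κ ≤ 1 → 0 < δ → ∃ c0 : ℝ, 0 < c0 ∧ ∀ c : ℝ, 0 < c → c ≤ c0 →
      ∃ G : Set ((Fin d → ℤ) → ℝ), MeasurableSet G ∧
        1 - Real.exp (-c ^ (-(1 / 101) : ℝ)) ≤
          (Measure.infinitePi fun _ : Fin d → ℤ => unif c).real G ∧
        ∀ ω ∈ G, ∀ a : Fin d → ℤ, ‖a‖ ≤ Real.exp (c ^ (-(1 / 101) : ℝ)) →
        ∀ m : Measure ℝ, IsSpectralMeasure (H ω) (Pi.single a 1) m →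
        ∀ α β : ℝ, κ ≤ α → β ≤ 4 * d - κ → (d = 2 → ∀ e, α ≤ e → e ≤ β → κ ≤ |e - 4|) →
          α + c ^ (2 + 1 / 50 : ℝ) ≤ β →
          |m.real (Set.Icc α β) - ∫ e in α..β, n e| ≤ c ^ (1 / 300 : ℝ) * (β - α) ∧
          ∀ (ι : Type) (u : ι → (Fin d → ℤ) → ℂ),
            IsLocalizedFamily ω α β (Real.exp (c ^ (-(1 / 1000) : ℝ)))
              (c ^ (-(2 + 1 / 100) : ℝ)) u →
            (Summable fun j => ‖u j a‖ ^ 2) ∧
              ∑' j, ‖u j a‖ ^ 2 ≤ δ * m.real (Set.Icc α β) := by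
  classical
  have hd2 : (2 : ℝ) ≤ d := by exact_mod_cast hd
  obtain ⟨γ0, γ1, hbase⟩ := Pool.Agent.H189.ME2.bp d hd
  refine ⟨fun e => (γ0 (2 * d - e)).im / Real.pi, fun e he1 he2 he3 => ?_,
    fun κ δ hκ hκ1 hδ => ?_⟩
  · -- the limit
    obtain ⟨κ, hκ, hκ1, hb⟩ : ∃ κ : ℝ, 0 < κ ∧ κ ≤ 1 ∧
        Pool.Agent.H189.ME2.Bk d κ (2 * d - e) := by
      rcases Nat.lt_or_ge 2 d with h3 | h3
      · refine ⟨min (min e (4 * d - e)) 1, lt_min (lt_min he1 (by linarith)) one_pos,
          min_le_right _ _, Or.inr ⟨h3, ?_⟩, ?_⟩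
        · rw [abs_le]
          constructor <;> linarith
        · have h1 := (min_le_left (min e (4 * d - e)) 1).trans (min_le_left _ _)
          have h2 := (min_le_left (min e (4 * d - e)) 1).trans (min_le_right _ _)
          rw [abs_le]
          constructor <;> linarith
      · have h22 : d = 2 := le_antisymm h3 hd
        have hdr : (d : ℝ) = 2 := by rw [h22]; norm_num
        have h4 : 0 < |e - 4| := abs_pos.2 (sub_ne_zero.2 (he3 h22))
        have h5 : 2 * (d : ℝ) - e = -(e - 4) := by rw [hdr]; ring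
        refine ⟨min (min (min e (8 - e)) |e - 4|) 1,
          lt_min (lt_min (lt_min he1 (by rw [hdr] at he2; linarith)) h4) one_pos,
          min_le_right _ _, ?_⟩
        have h1 := ((min_le_left (min (min e (8 - e)) |e - 4|) 1).trans
          (min_le_left _ _)).trans (min_le_left _ _)
        have h2 := ((min_le_left (min (min e (8 - e)) |e - 4|) 1).trans
          (min_le_left _ _)).trans (min_le_right _ _)
        have h6 := (min_le_left (min (min e (8 - e)) |e - 4|) 1).trans (min_le_right _ _)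
        have h7 : |e - 4| ≤ 4 - min (min (min e (8 - e)) |e - 4|) 1 := by
          rw [abs_le]
          constructor <;> linarith
        unfold Pool.Agent.H189.ME2.Bk
        rw [h5, abs_neg]
        refine ⟨Or.inl ⟨h22, by rw [abs_neg]; exact h6, by rw [abs_neg]; exact h7⟩, ?_⟩
        rw [hdr]
        linarith
    obtain ⟨h1, ⟨m1, hm1, h2⟩, -⟩ := hbase κ hκ hκ1
    obtain ⟨l0, -, -, g10⟩ := h1 _ hb.1
    have h3 := h2 _ hb.1 hb.2
    have l1 := ((Complex.continuous_im.tendsto _).comp l0).div_const Real.pi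
    refine ⟨l1.congr' ?_, div_pos (by linarith) Real.pi_pos⟩
    filter_upwards [self_mem_nhdsWithin] with t ht
    rw [freeDos_eq d t e ht]
    rfl
  obtain ⟨m1, hm1, hw⟩ := Pool.Agent.H189.ME2.lwin2 d hd γ0 γ1 hbase (κ / 2) (by positivity)
    (by linarith)
  obtain ⟨l0, hl0, -, hW⟩ := hw 1 (1 / 3) (δ * m1) one_pos (by norm_num) (by positivity)
  obtain ⟨l1, hl1, -, hL⟩ := Pool.Agent.H189.ME2.ldos d hd γ0 γ1 hbase κ hκ hκ1
  refine ⟨min l0 l1, lt_min hl0 hl1, fun c hc hle => ?_⟩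
  have huc : IsProbabilityMeasure (unif c) := Pool.Agent.W788.LD.Uni.unif_prob c hc
  obtain ⟨G, hG, hP, hb⟩ := hW (Pool.Agent.W788.LD.Uni.unif 1)
    (Pool.Agent.W788.LD.Uni.unif_prob 1 one_pos)
    (Pool.Agent.W788.LD.Uni.unif_bdd 1) 0 (1 / 3) unif_mean unif_var le_rfl c hc
    (hle.trans (min_le_left _ _))
  have hTm : Measurable (fun (ω : (Fin d → ℤ) → ℝ) x => ω x / c) := by fun_prop
  have hlaw : (Measure.infinitePi fun _ : Fin d → ℤ => unif c).map (fun ω x => ω x / c) =
      Measure.infinitePi fun _ : Fin d → ℤ => Pool.Agent.W788.LD.Uni.unif 1 := by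
    have h1 := Measure.infinitePi_map_pi (μ := fun _ : Fin d → ℤ => unif c)
      (f := fun _ (s : ℝ) => s / c) (fun _ => by fun_prop)
    rw [h1]
    congr 1
    funext _
    exact Pool.Agent.W788.BK.Unif.unif_scale c hc
  refine ⟨(fun ω x => ω x / c) ⁻¹' G, hTm hG, ?_, ?_⟩
  · have h1 : (Measure.infinitePi fun _ : Fin d → ℤ => unif c).real
        ((fun ω x => ω x / c) ⁻¹' G) =
        (Measure.infinitePi fun _ : Fin d → ℤ => Pool.Agent.W788.LD.Uni.unif 1).real G := by
      rw [← hlaw, map_measureReal_apply hTm hG]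
    rw [h1]
    exact hP
  intro ω hω a ha m hm α β hα hβ hαβ2 hαβ
  haveI := hm.1
  obtain ⟨hl, hwin⟩ := hb _ hω a ha
  have hHS : ∀ (u : (Fin d → ℤ) → ℂ) (x : Fin d → ℤ), H ω u x =
      -Pool.Agent.W788.LD.Spec.S u x + ((2 * d + c * (ω x / c) : ℝ) : ℂ) * u x := by
    intro u x
    have h3 : c * (ω x / c) = ω x := by field_simp
    rw [h3]
    unfold H Pool.Agent.W788.LD.Spec.S
    have h2 : ∑ i : Fin d, ((u (x + Pi.single i 1) - u x) + (u (x - Pi.single i 1) - u x)) =
        ∑ i : Fin d, (u (x + Pi.single i 1) + u (x - Pi.single i 1)) - 2 * (d : ℂ) * u x := by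
      rw [Finset.sum_add_distrib, Finset.sum_sub_distrib, Finset.sum_sub_distrib,
        Finset.sum_add_distrib]
      simp
      ring
    rw [h2]
    push_cast
    ring
  have hbk : ∀ e, α ≤ e → e ≤ β → Pool.Agent.H189.ME2.Bk d κ (2 * d + c * 0 - e) := by
    intro e he1 he2
    rw [mul_zero, add_zero]
    have h7 : |2 * (d : ℝ) - e| ≤ 2 * d - κ := by
      rw [abs_le]
      constructor <;> linarith
    rcases Nat.lt_or_ge 2 d with h3 | h3
    · exact ⟨Or.inr ⟨h3, h7.trans (by linarith)⟩, h7⟩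
    · have h22 : d = 2 := le_antisymm h3 hd
      have hdr : (d : ℝ) = 2 := by rw [h22]; norm_num
      have h5 : 2 * (d : ℝ) - e = -(e - 4) := by rw [hdr]; ring
      refine ⟨Or.inl ⟨h22, ?_, ?_⟩, h7⟩
      · rw [h5, abs_neg]
        exact hαβ2 h22 e he1 he2
      · rw [hdr] at h7 ⊢
        linarith
  have hbk2 : ∀ e, α ≤ e → e ≤ β → Pool.Agent.H189.ME2.Bk d (κ / 2) (2 * d + c * 0 - e) :=
    fun e he1 he2 => (hbk e he1 he2).near (r := 0) (by simp) (by linarith) (by positivity)
  have hpint : ∀ e η : ℝ, 0 < η → ∃ u, Pool.Agent.TH794.QE.Rs d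
      (fun x => 2 * (d : ℝ) + c * (ω x / c)) a e η u ∧
      ∫ E, η / ((E - e) ^ 2 + η ^ 2) ∂m = (u a).im := by
    intro e η hη
    obtain ⟨u, hu, heq, hint⟩ := hm.2 ((e : ℂ) + (η : ℂ) * Complex.I) (by simpa using hη.ne')
    refine ⟨u, ⟨hu, fun x => ?_⟩, ?_⟩
    · rw [← hHS, heq x]
      by_cases hx : x = a
      · rw [hx, Pi.single_eq_same, if_pos rfl]
      · rw [Pi.single_eq_of_ne hx, if_neg hx]
    · have h1 : ∑' x, (starRingEnd ℂ) ((Pi.single a 1 : (Fin d → ℤ) → ℂ) x) * u x = u a := by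
        rw [tsum_eq_single a]
        · simp
        · intro x hx
          rw [Pi.single_eq_of_ne hx]
          simp
      rw [h1] at hint
      rw [← hint]
      have h2 : Integrable (fun E : ℝ => ((E : ℂ) - ((e : ℂ) + (η : ℂ) * Complex.I))⁻¹) m := by
        refine Integrable.of_bound (C := η⁻¹) ?_ (Eventually.of_forall fun E => ?_)
        · exact (by fun_prop : Measurable fun E : ℝ =>
            ((E : ℂ) - ((e : ℂ) + (η : ℂ) * Complex.I))⁻¹).aestronglyMeasurable
        · rw [norm_inv]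
          refine inv_anti₀ hη ?_
          have h3 := Complex.abs_im_le_norm ((E : ℂ) - ((e : ℂ) + (η : ℂ) * Complex.I))
          have h4 : ((E : ℂ) - ((e : ℂ) + (η : ℂ) * Complex.I)).im = -η := by simp
          rwa [h4, abs_neg, abs_of_pos hη] at h3
      have h3 := Complex.imCLM.integral_comp_comm h2
      simp only [Complex.imCLM_apply] at h3
      rw [← h3]
      refine integral_congr_ae (Eventually.of_forall fun E => ?_)
      simp only
      rw [Complex.inv_im]
      have h4 : -((E : ℂ) - ((e : ℂ) + (η : ℂ) * Complex.I)).im = η := by simp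
      have h5 : Complex.normSq ((E : ℂ) - ((e : ℂ) + (η : ℂ) * Complex.I)) =
          (E - e) ^ 2 + η ^ 2 := by
        rw [Complex.normSq_apply]
        simp
        ring
      rw [h4, h5]
  obtain ⟨q1, q2⟩ := hwin α β hbk2 hαβ
  have hlow := q1 m hm.1 hpint
  constructor
  · have q3 := hL 0 c (fun x => ω x / c) a hc (hle.trans (min_le_right _ _)) hl α β hbk hαβ m
      hm.1 hpint
    have e1 : ∫ e in α..β, (γ0 (2 * d - e)).im / Real.pi =
        1 / Real.pi * ∫ e in α..β, (γ0 (2 * d + c * 0 - e)).im := by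
      rw [← intervalIntegral.integral_const_mul]
      refine intervalIntegral.integral_congr fun e _ => ?_
      simp only [mul_zero, add_zero]
      ring
    rw [e1]
    exact q3
  · intro ι u hu
    have key : ∀ s : Finset ι, ∑ j ∈ s, ‖u j a‖ ^ 2 ≤ δ * m.real (Set.Icc α β) := by
      intro s
      choose E hE1 hE2 hE using hu.eig
      choose cc hcc using hu.decay
      have h5 := q2 ι s u cc E ⟨fun j _ => hu.norm j, fun j _ k _ hjk => hu.orth j k hjk,
        fun j _ x => hcc j x⟩ (fun j _ => ⟨hE1 j, hE2 j⟩) (fun j _ x => by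
          rw [← hHS]
          exact hE j x)
      refine h5.trans ?_
      rw [mul_assoc]
      exact mul_le_mul_of_nonneg_left hlow hδ.le
    have hs : Summable fun j => ‖u j a‖ ^ 2 := summable_of_sum_le (fun j => by positivity) key
    exact ⟨hs, hs.tsum_le_of_sum_le key⟩

end Pool.Agent.Results.MP_562b47_mp.LocalDensityOfStates
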